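import Pool.Agent.Lib.helper20.TMFib

namespace Pool.Agent.Results.MP_36a07b_nt.Q1

open Pool.Agent.Lib.helper20.TMFib

theorem result (n : ℕ) (hn : 1 ≤ n) :
    h (2 ^ (2 * n) - 3) ∣ h (2 * (2 ^ (2 * n) - 3)) - 0 := by
  obtain ⟨j, rfl⟩ : ∃ j, n = j + 1 := ⟨n - 1, by omega⟩
  have p : 2 ^ (2 * (j + 1)) = 4 * 2 ^ (2 * j) := by ring
  have hp : 1 ≤ 2 ^ (2 * j) := Nat.one_le_two_pow
  have := doubling (2 * j) (2 ^ (2 * (j + 1)) - 3)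
    (by rw [show 2 * j + 2 = 2 * (j + 1) by ring]; omega)
  rwa [(even_two_mul j).neg_one_pow, sub_self] at this

end Pool.Agent.Results.MP_36a07b_nt.Q1
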