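import Pool.Agent.Lib.helper20.TMFib

namespace Pool.Agent.Results.MP_36a07b_nt.Q2

open Pool.Agent.Lib.helper20.TMFib

theorem result (k : ℕ) (hk : Odd k) (h3 : 3 ≤ k) :
    h (2 ^ k - 3) ∣ h (2 * (2 ^ k - 3)) - (-2) := by
  obtain ⟨j, rfl⟩ : ∃ j, k = j + 2 := ⟨k - 2, by omega⟩
  have p : 2 ^ (j + 2) = 4 * 2 ^ j := by ring
  have hp : 1 ≤ 2 ^ j := Nat.one_le_two_pow
  have hj : Odd j := by
    obtain ⟨i, hi⟩ := hk
    exact ⟨i - 1, by omega⟩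
  have := doubling j (2 ^ (j + 2) - 3) (by omega)
  rwa [hj.neg_one_pow] at this

end Pool.Agent.Results.MP_36a07b_nt.Q2
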